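import Mathlib
import Pool.Agent.Q265.LC.N

/-!
# Localisation of the abc inequality with `H = γ / (log γ) ^ ω`, on the values of a Belyi map

Let `S` be a finite set of primes. The inequality `c < C(ε) H(abc) ^ (1 + ε)` for all triples is
equivalent to its restriction to the triples for which `a / c` is a value of a given Belyi map `f`
and is as close as wanted to `0` at the real place and at all primes in `S`. More generally, for any
set `E` of places of `S ∪ {∞}`, the inequality for the triples which are compactly bounded (away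
from the cusps) at the places in `E` is equivalent to the inequality for the triples with `a / c` in
`f(ℚ)` and in one arbitrarily small polydisc.
-/

set_option autoImplicit false

open Polynomial

namespace Pool.Agent.Results.MP_14cf73_nt.AdelicLocalisation

/-- the radical `γ(n)`: the product of the distinct primes dividing `n` -/
def rad (n : ℕ) : ℕ := ∏ p ∈ n.primeFactors, p

/-- `H(n) = γ(n) / (log γ(n)) ^ ω(n)`, with `0 ^ 0 = 1` -/
noncomputable def H (n : ℕ) : ℝ := (rad n : ℝ) / Real.log (rad n : ℝ) ^ n.primeFactors.card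

/-- the statement of Q1 -/
def Q1 : Prop := ∀ ε : ℝ, 0 < ε → ∃ C : ℝ, ∀ a b c : ℕ, 0 < a → 0 < b → a + b = c →
  Nat.gcd (Nat.gcd a b) c = 1 → (c : ℝ) < C * H (a * b * c) ^ (1 + ε)

/-- the inequality of Q1 (with every `ε > 0`) for the coprime nonzero integers `a + b = c` with
`a / c ∈ T` -/
def Q1On (T : Set ℚ) : Prop := ∀ ε : ℝ, 0 < ε → ∃ C : ℝ, ∀ a b c : ℤ, a ≠ 0 → b ≠ 0 → c ≠ 0 →
  IsCoprime a b → a + b = c → (a : ℚ) / c ∈ T →
    ((max |a| (max |b| |c|) : ℤ) : ℝ) < C * H (a * b * c).natAbs ^ (1 + ε)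

/-- The rational function `f = F / G` over `ℚ` has degree `d`, it maps `0`, `1` and `∞` to elements
of `{0, 1, ∞}`, and there are at most `d + 1` complex numbers which it maps to `0`, `1` or `∞`
(with `∞` at most `d + 2` points). By the formula of Riemann and Hurwitz the last condition means
that `f` is unramified outside the points over `0, 1, ∞`. -/
structure IsBelyi (F G : ℚ[X]) (d : ℕ) : Prop where
  pos : 1 ≤ d
  coprime : IsCoprime F G
  degree : max F.natDegree G.natDegree = d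
  zero : (F * G * (F - G)).eval 0 = 0
  one : (F * G * (F - G)).eval 1 = 0
  infinity : F.natDegree < d ∨ G.natDegree < d ∨ (F - G).natDegree < d
  unramified : ((F * G * (F - G)).rootSet ℂ).ncard ≤ d + 1

/-- the height `max(|a|, |c|)` of `a / c` -/
noncomputable def height (s : ℚ) : ℝ := max |(s.num : ℝ)| (s.den : ℝ)

/-- the set `f(ℚ)` -/
def Values (F G : ℚ[X]) : Set ℚ := {s | ∃ t : ℚ, G.eval t ≠ 0 ∧ s = F.eval t / G.eval t}

variable {ι : Type} [Fintype ι] (P : ι → ℕ) [∀ i, Fact (P i).Prime]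

/-- The inequality for the triples which are compactly bounded at the places in `E`; the places
are the real one (`none`) and the primes `P i` (`some i`). -/
def Bounded (E : Set (Option ι)) : Prop :=
  ∀ (K : Set ℝ) (J : ∀ i, Set ℚ_[P i]), IsCompact K → (0 : ℝ) ∉ K → (1 : ℝ) ∉ K →
    (∀ i, IsCompact (J i) ∧ (0 : ℚ_[P i]) ∉ J i ∧ (1 : ℚ_[P i]) ∉ J i) →
    Q1On {t : ℚ | (none ∈ E → (t : ℝ) ∈ K) ∧ ∀ i, some i ∈ E → (t : ℚ_[P i]) ∈ J i}

/-- the elements of `f(ℚ)` which are closer than `δ` to `f(x)` at the real place and to `f(y i)` at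
the prime `P i`, for all `i` -/
def Near (F G : ℚ[X]) (x : ℝ) (y : ∀ i, ℚ_[P i]) (δ : ℝ) : Set ℚ :=
  {s | s ∈ Values F G ∧ |(s : ℝ) - aeval x F / aeval x G| < δ ∧
    ∀ i, ‖(s : ℚ_[P i]) - aeval (y i) F / aeval (y i) G‖ < δ}

/-- The coordinates of the point `(x, y)` at the places outside `E` are `0`; at the places in `E` the
value of `f` is different from `0, 1, ∞`. -/
structure IsPoint (E : Set (Option ι)) (F G : ℚ[X]) (x : ℝ) (y : ∀ i, ℚ_[P i]) : Prop where
  real_in : none ∈ E → aeval x G ≠ 0 ∧ aeval x F ≠ 0 ∧ aeval x F ≠ aeval x G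
  real_out : none ∉ E → x = 0
  prime_in : ∀ i, some i ∈ E →
    aeval (y i) G ≠ 0 ∧ aeval (y i) F ≠ 0 ∧ aeval (y i) F ≠ aeval (y i) G
  prime_out : ∀ i, some i ∉ E → y i = 0

/-- Let `f = F / G` be as in `IsBelyi`, with `f(0) = 0`, and let the primes `P i` be distinct.
(1) For every `δ > 0` the statement of Q1 is equivalent to its inequality for the triples with
`a / c ∈ f(ℚ)` closer than `δ` to `0` at the real place and at all primes `P i`.
(2) Let `E` be any set of places and `(x, y)` a point as in `IsPoint`. For every `δ > 0` the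
inequality for the elements of `f(ℚ)` close to `f(x, y)` implies the inequality for all triples
which are compactly bounded at the places in `E`; for small `δ` they are equivalent.
(3) For the triples in (1) the ratio of the height and of `H(abc) exp(κ log h / log log h)` is
unbounded, for some `κ > 0`. -/
theorem result (hP : Function.Injective P) {F G : ℚ[X]} {d : ℕ} (hf : IsBelyi F G d)
    (h0 : F.eval 0 = 0) :
    (∀ δ : ℝ, 0 < δ → (Q1 ↔ Q1On (Near P F G 0 0 δ))) ∧
    (∀ (E : Set (Option ι)) (x : ℝ) (y : ∀ i, ℚ_[P i]), IsPoint P E F G x y →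
      (∀ δ : ℝ, 0 < δ → Q1On (Near P F G x y δ) → Bounded P E) ∧
      ∃ δ₀ : ℝ, 0 < δ₀ ∧ ∀ δ : ℝ, 0 < δ → δ ≤ δ₀ →
        (Bounded P E ↔ Q1On (Near P F G x y δ))) ∧
    (∀ δ : ℝ, 0 < δ → ∃ κ : ℝ, 0 < κ ∧ ∀ C : ℝ, ∃ s ∈ Near P F G 0 0 δ, s ≠ 0 ∧ s ≠ 1 ∧
      C * H (s.num.natAbs * s.den * (s.num - s.den).natAbs) *
        Real.exp (κ * (Real.log (height s) / Real.log (Real.log (height s) + 2))) <
          height s) := by
  have hB : Q265.LC.Bel F G d :=
    Q265.LC.bel_of hf.pos hf.coprime hf.degree hf.zero hf.one hf.infinity hf.unramified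
  have hI := Q265.LC.isTr_H
  have hiff : ∀ T : Set ℚ, Q1On T ↔ Q265.LC.HIneq T := fun T => (Q265.LC.hineq_iff T).symm
  have hbdd : ∀ E : Set (Option ι), Bounded P E ↔ Q265.LC.Bdd P Q265.LC.HIneq E := by
    intro E
    constructor
    · intro h K J h1 h2 h3 h4
      exact (hiff _).1 (h K J h1 h2 h3 h4)
    · intro h K J h1 h2 h3 h4
      exact (hiff _).2 (h K J h1 h2 h3 h4)
  have hpt0 : ∀ δ : ℝ, 0 < δ → ∀ I : Set ℚ → Prop, Q265.LC.IsTr I → I (Near P F G 0 0 δ) →
      I Set.univ := by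
    intro δ hδ I hI' h
    refine (Q265.LC.bdd_empty (P := P) hI').1 (Q265.LC.local_main hI' hP hB h0 (E := ∅) (x := 0)
      (y := 0) (fun h => h.elim) (fun _ => rfl) (fun i h => h.elim) (fun i _ => rfl) hδ h)
  refine ⟨fun δ hδ => ?_, fun E x y hpt => ?_, fun δ hδ => ?_⟩
  · have habc : Q1 ↔ Q265.LC.HIneq Set.univ := Q265.LC.hineq_nat.symm
    rw [habc, hiff]
    exact ⟨fun h => hI.mono h (Set.subset_univ _), fun h => hpt0 δ hδ _ hI h⟩
  · have key : ∀ δ : ℝ, 0 < δ → Q1On (Near P F G x y δ) → Bounded P E := by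
      intro δ hδ h
      exact (hbdd E).2 (Q265.LC.local_main hI hP hB h0 hpt.real_in hpt.real_out hpt.prime_in
        hpt.prime_out hδ ((hiff _).1 h))
    refine ⟨key, ?_⟩
    obtain ⟨δ₀, h1, h2⟩ := Q265.LC.local_conv hI F G hpt.real_in hpt.prime_in
    exact ⟨δ₀, h1, fun δ hδ hδ' => ⟨fun h => (hiff _).2 (h2 δ hδ' ((hbdd E).1 h)), key δ hδ⟩⟩
  · have hn : ¬ Q265.LC.LowH (Near P F G 0 0 δ) := fun h =>
      Q265.LC.not_lowH (hpt0 δ hδ _ Q265.LC.isTr_lowH h)
    unfold Q265.LC.LowH at hn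
    push Not at hn
    obtain ⟨κ, hκ, hC⟩ := hn
    refine ⟨κ, hκ, fun C => ?_⟩
    obtain ⟨s, hs, s0, s1, h⟩ := hC (Real.log (max C 1))
    refine ⟨s, hs, s0, s1, ?_⟩
    have hH : 1 ≤ Q265.LC.H s := Q265.LC.one_le_H s
    have hR : 0 < Q265.LC.Hf (Q265.LC.Tp s) := Q265.LC.Hf_pos _
    have hm : (0 : ℝ) < max C 1 := lt_of_lt_of_le one_pos (le_max_right _ _)
    have h2 : max C 1 * Q265.LC.Hf (Q265.LC.Tp s) *
        Real.exp (κ * Q265.LC.psi2 (Real.log (Q265.LC.H s))) < Q265.LC.H s := by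
      rw [← Real.log_lt_log_iff (by positivity) (by linarith), Real.log_mul (by positivity)
        (Real.exp_pos _).ne', Real.log_exp, Real.log_mul hm.ne' (by positivity)]
      unfold Q265.LC.Lam at h
      linarith
    refine lt_of_le_of_lt ?_ h2
    show C * Q265.LC.Hf (Q265.LC.Tp s) * Real.exp (κ * Q265.LC.psi2 (Real.log (Q265.LC.H s))) ≤ _
    gcongr
    exact le_max_left _ _

end Pool.Agent.Results.MP_14cf73_nt.AdelicLocalisation
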