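import Mathlib
import Pool.Agent.Q173.HW.A

/-!
# Few exceptions to the abc-type inequality with the radical divided by a log-power

`H(n) = γ(n) / (log γ(n)) ^ ω(n)`. We bound the number of the admissible triples `(a, b, c)` with
`c ≤ X` and `H(abc) ≤ Y`, and the number of the integers which are a member of such a triple:
at most `C X ^ δ Y ^ (2/3)` and `C X ^ δ Y ^ (1/2)`, for every `δ > 0`. In particular (for
`Y = X ^ (1 / (1 + ε))`) this bounds the exceptions to the inequality of the question.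

Proof: with `A = 1 + 3 log X` and `w(u) = ∏_{p ∣ u} A / p` the triples in question have
`1 ≤ Y w(a) w(b) w(c)`, and `∑_{u ≤ X} w(u) ≤ C X ^ δ` (Rankin's method).
-/

set_option autoImplicit false

namespace Pool.Agent.Results.MP_14cf73_nt.FewExceptions

open Finset Pool.Agent.Q173.HW

/-- the radical `γ(n)`: the product of the distinct primes dividing `n` -/
def rad (n : ℕ) : ℕ := ∏ p ∈ n.primeFactors, p

/-- `H(n) = γ(n) / (log γ(n)) ^ ω(n)`, with `0 ^ 0 = 1` -/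
noncomputable def H (n : ℕ) : ℝ := (rad n : ℝ) / Real.log (rad n : ℝ) ^ n.primeFactors.card

/-- admissible triples `(a, b, c)`, as elements of `ℕ × ℕ × ℕ` -/
def Admissible (t : ℕ × ℕ × ℕ) : Prop :=
  0 < t.1 ∧ 0 < t.2.1 ∧ t.1 + t.2.1 = t.2.2 ∧ Nat.gcd (Nat.gcd t.1 t.2.1) t.2.2 = 1

/-- the admissible triples with `c ≤ X` and `H(abc) ≤ Y` -/
def Small (X Y : ℝ) : Set (ℕ × ℕ × ℕ) :=
  {t | Admissible t ∧ (t.2.2 : ℝ) ≤ X ∧ H (t.1 * t.2.1 * t.2.2) ≤ Y}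

/-- the triples in a set with `min(a, b) ≤ Z` -/
def withMin (T : Set (ℕ × ℕ × ℕ)) (Z : ℝ) : Set (ℕ × ℕ × ℕ) :=
  {t | t ∈ T ∧ ((min t.1 t.2.1 : ℕ) : ℝ) ≤ Z}

/-- the members `a`, `b`, `c` of the triples `(a, b, c)` in a set -/
def members (T : Set (ℕ × ℕ × ℕ)) : Set ℕ := {n | ∃ t ∈ T, n = t.1 ∨ n = t.2.1 ∨ n = t.2.2}

/-- the admissible triples with `c ≤ X` which violate `c < H(abc) ^ (1 + ε)` -/
def Exceptions (ε X : ℝ) : Set (ℕ × ℕ × ℕ) :=
  {t | Admissible t ∧ (t.2.2 : ℝ) ≤ X ∧ ¬ (t.2.2 : ℝ) < H (t.1 * t.2.1 * t.2.2) ^ (1 + ε)}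

/-- the members of an admissible triple are pairwise coprime -/
theorem coprimes {a b c : ℕ} (h : a + b = c) (hg : Nat.gcd (Nat.gcd a b) c = 1) :
    Nat.Coprime a b ∧ Nat.Coprime (a * b) c := by
  have hab : Nat.gcd a b = 1 := by
    have : Nat.gcd a b ∣ c := by
      rw [← h]
      exact (Nat.dvd_add (Nat.gcd_dvd_left a b) (Nat.gcd_dvd_right a b))
    rwa [Nat.gcd_eq_left this] at hg
  refine ⟨hab, Nat.Coprime.mul_left ?_ ?_⟩
  · rw [← h]
    have : Nat.Coprime a b := hab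
    simpa using this
  · rw [← h]
    have : Nat.Coprime b a := (Nat.coprime_comm.1 hab)
    simpa using this

theorem rad_pos (n : ℕ) : 0 < rad n :=
  Finset.prod_pos fun _ hp => (Nat.prime_of_mem_primeFactors hp).pos

theorem rad_le {n : ℕ} (hn : n ≠ 0) : rad n ≤ n :=
  Nat.le_of_dvd (Nat.pos_of_ne_zero hn) (Nat.prod_primeFactors_dvd n)

theorem log_rad_pow_pos (n : ℕ) : 0 < Real.log (rad n : ℝ) ^ n.primeFactors.card := by
  rcases Nat.eq_zero_or_pos n.primeFactors.card with h | h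
  · rw [h, pow_zero]; exact one_pos
  · obtain ⟨p, hp⟩ := Finset.card_pos.1 h
    have h1 : p ≤ rad n := Nat.le_of_dvd (rad_pos n) (Finset.dvd_prod_of_mem (fun p => p) hp)
    have h2 : 2 ≤ p := (Nat.prime_of_mem_primeFactors hp).two_le
    have h3 : (1 : ℝ) < (rad n : ℝ) := by exact_mod_cast (by omega : 1 < rad n)
    exact pow_pos (Real.log_pos h3) _

theorem H_pos (n : ℕ) : 0 < H n :=
  div_pos (by exact_mod_cast rad_pos n) (log_rad_pow_pos n)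

/-- `w(n) = A ^ ω(n) / γ(n)` -/
theorem w_eq (A : ℝ) (n : ℕ) : w A n = A ^ n.primeFactors.card / (rad n : ℝ) := by
  unfold w rad
  rw [Finset.prod_div_distrib, Finset.prod_const, Nat.cast_prod]

theorem one_le {X : ℝ} {t : ℕ × ℕ × ℕ} (ht : Admissible t) (hX : (t.2.2 : ℝ) ≤ X) :
    1 ≤ H (t.1 * t.2.1 * t.2.2) *
      (w (1 + 3 * Real.log X) t.1 * w (1 + 3 * Real.log X) t.2.1 *
        w (1 + 3 * Real.log X) t.2.2) := by
  obtain ⟨a, b, c⟩ := t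
  obtain ⟨ha, hb, hc, hg⟩ := ht
  simp only at ha hb hc hg hX ⊢
  obtain ⟨h1, h2⟩ := coprimes hc hg
  rw [← w_mul _ h1, ← w_mul _ h2, w_eq]
  set n := a * b * c with hn
  set A : ℝ := 1 + 3 * Real.log X with hA
  have hc0 : 0 < c := by omega
  have hn0 : n ≠ 0 := by
    rw [hn]; positivity
  have hrp : (0 : ℝ) < rad n := by exact_mod_cast rad_pos n
  have hlp := log_rad_pow_pos n
  have hX1 : (1 : ℝ) ≤ X := by
    have : (1 : ℝ) ≤ c := by exact_mod_cast hc0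
    linarith
  have hX0 : 0 < X := by linarith
  have hlog : Real.log (rad n : ℝ) ≤ A := by
    have h3 : (rad n : ℝ) ≤ X ^ 3 := by
      have h4 : (rad n : ℝ) ≤ n := by exact_mod_cast rad_le hn0
      have h5 : (a : ℝ) ≤ X := by
        have : (a : ℝ) ≤ c := by exact_mod_cast (by omega : a ≤ c)
        linarith
      have h6 : (b : ℝ) ≤ X := by
        have : (b : ℝ) ≤ c := by exact_mod_cast (by omega : b ≤ c)
        linarith
      have h7 : (n : ℝ) ≤ X * X * X := by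
        rw [hn]; push_cast
        have h8 : (a : ℝ) * b ≤ X * X :=
          mul_le_mul h5 h6 (Nat.cast_nonneg b) hX0.le
        exact mul_le_mul h8 hX (Nat.cast_nonneg c) (by positivity)
      calc (rad n : ℝ) ≤ n := h4
        _ ≤ X * X * X := h7
        _ = X ^ 3 := by ring
    have h9 := Real.log_le_log hrp h3
    rw [Real.log_pow] at h9
    push_cast at h9
    rw [hA]; linarith
  have hlog0 : 0 ≤ Real.log (rad n : ℝ) :=
    Real.log_nonneg (by exact_mod_cast rad_pos n)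
  have hpow : Real.log (rad n : ℝ) ^ n.primeFactors.card ≤ A ^ n.primeFactors.card :=
    pow_le_pow_left₀ hlog0 hlog _
  unfold H
  rw [div_mul_div_comm, mul_comm (Real.log _ ^ _), mul_div_mul_left _ _ hrp.ne']
  exact (one_le_div hlp).2 hpow

/-- The number of pairs with `1 ≤ Z w(u) w(v)`. -/
theorem card_pairs {A Z : ℝ} (hA : 0 ≤ A) (hZ : 0 ≤ Z) (S : Finset ℕ) :
    ((((S ×ˢ S).filter fun q => 1 ≤ Z * (w A q.1 * w A q.2)).card : ℕ) : ℝ) ≤
      Z * (∑ u ∈ S, w A u) ^ 2 := by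
  have h1 : ((((S ×ˢ S).filter fun q => 1 ≤ Z * (w A q.1 * w A q.2)).card : ℕ) : ℝ) ≤
      ∑ q ∈ (S ×ˢ S).filter (fun q => 1 ≤ Z * (w A q.1 * w A q.2)),
        Z * (w A q.1 * w A q.2) := by
    rw [Finset.card_eq_sum_ones, Nat.cast_sum]
    refine Finset.sum_le_sum fun q hq => ?_
    rw [Nat.cast_one]
    exact (Finset.mem_filter.1 hq).2
  refine h1.trans ?_
  have h2 : ∑ q ∈ (S ×ˢ S).filter (fun q => 1 ≤ Z * (w A q.1 * w A q.2)),
        Z * (w A q.1 * w A q.2) ≤ ∑ q ∈ S ×ˢ S, Z * (w A q.1 * w A q.2) :=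
    Finset.sum_le_sum_of_subset_of_nonneg (Finset.filter_subset _ _) fun q _ _ =>
      mul_nonneg hZ (mul_nonneg (w_nonneg hA _) (w_nonneg hA _))
  refine h2.trans (le_of_eq ?_)
  rw [← Finset.mul_sum, sq, Finset.sum_mul_sum, Finset.sum_product]

/-- The number of `u` with `1 ≤ Z w(u)`. -/
theorem card_singles {A Z : ℝ} (hA : 0 ≤ A) (hZ : 0 ≤ Z) (S : Finset ℕ) :
    (((S.filter fun u => 1 ≤ Z * w A u).card : ℕ) : ℝ) ≤ Z * ∑ u ∈ S, w A u := by
  have h1 : (((S.filter fun u => 1 ≤ Z * w A u).card : ℕ) : ℝ) ≤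
      ∑ u ∈ S.filter (fun u => 1 ≤ Z * w A u), Z * w A u := by
    rw [Finset.card_eq_sum_ones, Nat.cast_sum]
    refine Finset.sum_le_sum fun q hq => ?_
    rw [Nat.cast_one]
    exact (Finset.mem_filter.1 hq).2
  refine h1.trans ?_
  rw [Finset.mul_sum]
  exact Finset.sum_le_sum_of_subset_of_nonneg (Finset.filter_subset _ _) fun q _ _ =>
      mul_nonneg hZ (w_nonneg hA _)

/-- one of the three products is at least one -/
theorem three {x y z V Y : ℝ} (hx : 0 ≤ x) (hy : 0 ≤ y) (hz : 0 ≤ z) (hV : 0 ≤ V)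
    (hVY : V ^ 3 = Y ^ 2) (h : 1 ≤ Y * (x * y * z)) :
    1 ≤ V * (x * y) ∨ 1 ≤ V * (x * z) ∨ 1 ≤ V * (y * z) := by
  by_contra hcon
  push Not at hcon
  obtain ⟨h1, h2, h3⟩ := hcon
  have p1 : 0 ≤ V * (x * y) := by positivity
  have p2 : 0 ≤ V * (x * z) := by positivity
  have p3 : 0 ≤ V * (y * z) := by positivity
  have h4 : V * (x * y) * (V * (x * z)) < 1 := by nlinarith
  have h5 : V * (x * y) * (V * (x * z)) * (V * (y * z)) < 1 := by
    have := mul_nonneg p1 p2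
    nlinarith
  have h6 : V * (x * y) * (V * (x * z)) * (V * (y * z)) = (Y * (x * y * z)) ^ 2 := by
    have : V * (x * y) * (V * (x * z)) * (V * (y * z)) = V ^ 3 * (x * y * z) ^ 2 := by ring
    rw [this, hVY]; ring
  rw [h6] at h5
  nlinarith

/-- one of the two products is at least one -/
theorem two {x y V Y : ℝ} (hx : 0 ≤ x) (hy : 0 ≤ y) (hV : 0 ≤ V)
    (hVY : V ^ 2 = Y) (h : 1 ≤ Y * (x * y)) : 1 ≤ V * x ∨ 1 ≤ V * y := by
  by_contra hcon
  push Not at hcon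
  obtain ⟨h1, h2⟩ := hcon
  have p1 : 0 ≤ V * x := by positivity
  have p2 : 0 ≤ V * y := by positivity
  have h4 : V * x * (V * y) < 1 := by nlinarith
  have h6 : V * x * (V * y) = Y * (x * y) := by
    rw [← hVY]; ring
  linarith

theorem mem_Icc {X : ℝ} {n : ℕ} (hn : 0 < n) (hX : (n : ℝ) ≤ X) : n ∈ Finset.Icc 1 ⌊X⌋₊ :=
  Finset.mem_Icc.2 ⟨hn, Nat.le_floor hX⟩

/-- the triples are determined by two of their members -/
theorem small_subset {X Y V : ℝ} (hV : 0 ≤ V) (hVY : V ^ 3 = Y ^ 2) (hX : 1 ≤ X) :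
    Small X Y ⊆ ↑(((((Finset.Icc 1 ⌊X⌋₊) ×ˢ (Finset.Icc 1 ⌊X⌋₊)).filter fun q =>
        1 ≤ V * (w (1 + 3 * Real.log X) q.1 * w (1 + 3 * Real.log X) q.2)).image
          (fun q => (q.1, q.2, q.1 + q.2))) ∪
      ((((Finset.Icc 1 ⌊X⌋₊) ×ˢ (Finset.Icc 1 ⌊X⌋₊)).filter fun q =>
        1 ≤ V * (w (1 + 3 * Real.log X) q.1 * w (1 + 3 * Real.log X) q.2)).image
          (fun q => (q.1, q.2 - q.1, q.2))) ∪
      ((((Finset.Icc 1 ⌊X⌋₊) ×ˢ (Finset.Icc 1 ⌊X⌋₊)).filter fun q =>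
        1 ≤ V * (w (1 + 3 * Real.log X) q.1 * w (1 + 3 * Real.log X) q.2)).image
          (fun q => (q.2 - q.1, q.1, q.2))) : Finset (ℕ × ℕ × ℕ)) := by
  rintro ⟨a, b, c⟩ ⟨hadm, hcX, hH⟩
  have hone := one_le hadm hcX
  obtain ⟨ha, hb, hc, hg⟩ := hadm
  simp only at ha hb hc hg hcX hH hone
  set A : ℝ := 1 + 3 * Real.log X with hA
  have hL : 0 ≤ Real.log X := Real.log_nonneg hX
  have hA0 : 0 ≤ A := by positivity
  have haX : (a : ℝ) ≤ X := by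
    have : (a : ℝ) ≤ c := by exact_mod_cast (by omega : a ≤ c)
    linarith
  have hbX : (b : ℝ) ≤ X := by
    have : (b : ℝ) ≤ c := by exact_mod_cast (by omega : b ≤ c)
    linarith
  have hwn : 0 ≤ w A a * w A b * w A c :=
    mul_nonneg (mul_nonneg (w_nonneg hA0 _) (w_nonneg hA0 _)) (w_nonneg hA0 _)
  have h1 : 1 ≤ Y * (w A a * w A b * w A c) :=
    hone.trans (mul_le_mul_of_nonneg_right hH hwn)
  have hma := mem_Icc ha haX
  have hmb := mem_Icc hb hbX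
  have hmc := mem_Icc (by omega : 0 < c) hcX
  simp only [Finset.coe_union, Finset.coe_image, Set.mem_union, Set.mem_image, Finset.mem_coe,
    Finset.mem_filter, Finset.mem_product]
  rcases three (w_nonneg hA0 a) (w_nonneg hA0 b) (w_nonneg hA0 c) hV hVY h1 with h | h | h
  · exact Or.inl (Or.inl ⟨(a, b), ⟨⟨hma, hmb⟩, h⟩, by simp [hc]⟩)
  · refine Or.inl (Or.inr ⟨(a, c), ⟨⟨hma, hmc⟩, h⟩, ?_⟩)
    simp only [Prod.mk.injEq, true_and, and_true]
    omega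
  · refine Or.inr ⟨(b, c), ⟨⟨hmb, hmc⟩, h⟩, ?_⟩
    simp only [Prod.mk.injEq, and_true]
    omega

theorem members_subset {X Y V : ℝ} (hV : 0 ≤ V) (hVY : V ^ 2 = Y) (hX : 1 ≤ X) :
    members (Small X Y) ⊆
      ↑(((Finset.Icc 1 ⌊X⌋₊).filter fun u => 1 ≤ V * w (1 + 3 * Real.log X) u) ∪
      ((((Finset.Icc 1 ⌊X⌋₊) ×ˢ (Finset.Icc 1 ⌊X⌋₊)).filter fun q =>
        1 ≤ V * (w (1 + 3 * Real.log X) q.1 * w (1 + 3 * Real.log X) q.2)).image
          (fun q => q.1 + q.2)) ∪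
      ((((Finset.Icc 1 ⌊X⌋₊) ×ˢ (Finset.Icc 1 ⌊X⌋₊)).filter fun q =>
        1 ≤ V * (w (1 + 3 * Real.log X) q.1 * w (1 + 3 * Real.log X) q.2)).image
          (fun q => q.2 - q.1)) : Finset ℕ) := by
  rintro n ⟨⟨a, b, c⟩, ⟨hadm, hcX, hH⟩, hn⟩
  have hone := one_le hadm hcX
  obtain ⟨ha, hb, hc, hg⟩ := hadm
  simp only at ha hb hc hg hcX hH hone hn
  set A : ℝ := 1 + 3 * Real.log X with hA
  have hL : 0 ≤ Real.log X := Real.log_nonneg hX
  have hA0 : 0 ≤ A := by positivity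
  have haX : (a : ℝ) ≤ X := by
    have : (a : ℝ) ≤ c := by exact_mod_cast (by omega : a ≤ c)
    linarith
  have hbX : (b : ℝ) ≤ X := by
    have : (b : ℝ) ≤ c := by exact_mod_cast (by omega : b ≤ c)
    linarith
  have hwa := w_nonneg hA0 a
  have hwb := w_nonneg hA0 b
  have hwc := w_nonneg hA0 c
  have hwn : 0 ≤ w A a * w A b * w A c := mul_nonneg (mul_nonneg hwa hwb) hwc
  have h1 : 1 ≤ Y * (w A a * w A b * w A c) :=
    hone.trans (mul_le_mul_of_nonneg_right hH hwn)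
  have hma := mem_Icc ha haX
  have hmb := mem_Icc hb hbX
  have hmc := mem_Icc (by omega : 0 < c) hcX
  simp only [Finset.coe_union, Finset.coe_image, Set.mem_union, Set.mem_image, Finset.mem_coe,
    Finset.mem_filter, Finset.mem_product]
  rcases hn with rfl | rfl | rfl
  · have h2 : 1 ≤ Y * (w A n * (w A b * w A c)) := by
      calc 1 ≤ Y * (w A n * w A b * w A c) := h1
        _ = _ := by ring
    rcases two hwa (mul_nonneg hwb hwc) hV hVY h2 with h | h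
    · exact Or.inl (Or.inl ⟨hma, h⟩)
    · refine Or.inr ⟨(b, c), ⟨⟨hmb, hmc⟩, h⟩, ?_⟩
      simp only
      omega
  · have h2 : 1 ≤ Y * (w A n * (w A a * w A c)) := by
      calc 1 ≤ Y * (w A a * w A n * w A c) := h1
        _ = _ := by ring
    rcases two hwb (mul_nonneg hwa hwc) hV hVY h2 with h | h
    · exact Or.inl (Or.inl ⟨hmb, h⟩)
    · refine Or.inr ⟨(a, c), ⟨⟨hma, hmc⟩, h⟩, ?_⟩
      simp only
      omega
  · have h2 : 1 ≤ Y * (w A n * (w A a * w A b)) := by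
      calc 1 ≤ Y * (w A a * w A b * w A n) := h1
        _ = _ := by ring
    rcases two hwc (mul_nonneg hwa hwb) hV hVY h2 with h | h
    · exact Or.inl (Or.inl ⟨hmc, h⟩)
    · refine Or.inl (Or.inr ⟨(a, b), ⟨⟨hma, hmb⟩, h⟩, ?_⟩)
      simp only
      omega

/-- The number of pairs with `u ∈ R` and `1 ≤ V √(w(u)) w(v)`. -/
theorem card_mixed {A V : ℝ} (hA : 0 ≤ A) (hV : 0 ≤ V) {R S : Finset ℕ} (hRS : R ⊆ S) :
    ((((R ×ˢ S).filter fun q => 1 ≤ V * (Real.sqrt (w A q.1) * w A q.2)).card : ℕ) : ℝ) ≤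
      V * (Real.sqrt (R.card * ∑ u ∈ S, w A u) * ∑ u ∈ S, w A u) := by
  have h1 : ((((R ×ˢ S).filter fun q => 1 ≤ V * (Real.sqrt (w A q.1) * w A q.2)).card : ℕ) : ℝ) ≤
      ∑ q ∈ (R ×ˢ S).filter (fun q => 1 ≤ V * (Real.sqrt (w A q.1) * w A q.2)),
        V * (Real.sqrt (w A q.1) * w A q.2) := by
    rw [Finset.card_eq_sum_ones, Nat.cast_sum]
    refine Finset.sum_le_sum fun q hq => ?_
    rw [Nat.cast_one]
    exact (Finset.mem_filter.1 hq).2
  refine h1.trans ?_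
  have h2 : ∑ q ∈ (R ×ˢ S).filter (fun q => 1 ≤ V * (Real.sqrt (w A q.1) * w A q.2)),
        V * (Real.sqrt (w A q.1) * w A q.2) ≤
      ∑ q ∈ R ×ˢ S, V * (Real.sqrt (w A q.1) * w A q.2) :=
    Finset.sum_le_sum_of_subset_of_nonneg (Finset.filter_subset _ _) fun q _ _ =>
      mul_nonneg hV (mul_nonneg (Real.sqrt_nonneg _) (w_nonneg hA _))
  refine h2.trans ?_
  have h3 : ∑ q ∈ R ×ˢ S, V * (Real.sqrt (w A q.1) * w A q.2) =
      V * ((∑ u ∈ R, Real.sqrt (w A u)) * ∑ u ∈ S, w A u) := by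
    rw [← Finset.mul_sum, Finset.sum_mul_sum, Finset.sum_product]
  rw [h3]
  refine mul_le_mul_of_nonneg_left (mul_le_mul_of_nonneg_right ?_
    (Finset.sum_nonneg fun u _ => w_nonneg hA u)) hV
  have h4 : ∑ u ∈ R, Real.sqrt (w A u) ≤
      Real.sqrt (∑ _u ∈ R, (1 : ℝ)) * Real.sqrt (∑ u ∈ R, w A u) := by
    have := Real.sum_sqrt_mul_sqrt_le R (f := fun _ => (1 : ℝ)) (g := fun u => w A u)
      (fun _ => zero_le_one) (fun u => w_nonneg hA u)
    simpa using this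
  refine h4.trans ?_
  rw [← Real.sqrt_mul (by positivity)]
  refine Real.sqrt_le_sqrt ?_
  rw [Finset.sum_const, nsmul_eq_mul, mul_one]
  exact mul_le_mul_of_nonneg_left (Finset.sum_le_sum_of_subset_of_nonneg hRS
    fun u _ _ => w_nonneg hA u) (Nat.cast_nonneg _)

theorem withMin_subset {X Y Z V : ℝ} (hV : 0 ≤ V) (hVY : V ^ 2 = Y) (hX : 1 ≤ X) :
    withMin (Small X Y) Z ⊆
      ↑((((((Finset.Icc 1 ⌊X⌋₊).filter fun u : ℕ => (u : ℝ) ≤ Z) ×ˢ (Finset.Icc 1 ⌊X⌋₊)).filter fun q =>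
        1 ≤ V * (Real.sqrt (w (1 + 3 * Real.log X) q.1) * w (1 + 3 * Real.log X) q.2)).image
          (fun q => (q.1, q.2, q.1 + q.2))) ∪
      (((((Finset.Icc 1 ⌊X⌋₊).filter fun u : ℕ => (u : ℝ) ≤ Z) ×ˢ (Finset.Icc 1 ⌊X⌋₊)).filter fun q =>
        1 ≤ V * (Real.sqrt (w (1 + 3 * Real.log X) q.1) * w (1 + 3 * Real.log X) q.2)).image
          (fun q => (q.1, q.2 - q.1, q.2))) ∪
      (((((Finset.Icc 1 ⌊X⌋₊).filter fun u : ℕ => (u : ℝ) ≤ Z) ×ˢ (Finset.Icc 1 ⌊X⌋₊)).filter fun q =>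
        1 ≤ V * (Real.sqrt (w (1 + 3 * Real.log X) q.1) * w (1 + 3 * Real.log X) q.2)).image
          (fun q => (q.2, q.1, q.2 + q.1))) ∪
      (((((Finset.Icc 1 ⌊X⌋₊).filter fun u : ℕ => (u : ℝ) ≤ Z) ×ˢ (Finset.Icc 1 ⌊X⌋₊)).filter fun q =>
        1 ≤ V * (Real.sqrt (w (1 + 3 * Real.log X) q.1) * w (1 + 3 * Real.log X) q.2)).image
          (fun q => (q.2 - q.1, q.1, q.2))) : Finset (ℕ × ℕ × ℕ)) := by
  rintro ⟨a, b, c⟩ ⟨⟨hadm, hcX, hH⟩, hmin⟩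
  have hone := one_le hadm hcX
  obtain ⟨ha, hb, hc, hg⟩ := hadm
  simp only at ha hb hc hg hcX hH hone hmin
  set A : ℝ := 1 + 3 * Real.log X with hA
  have hL : 0 ≤ Real.log X := Real.log_nonneg hX
  have hA0 : 0 ≤ A := by positivity
  have haX : (a : ℝ) ≤ X := by
    have : (a : ℝ) ≤ c := by exact_mod_cast (by omega : a ≤ c)
    linarith
  have hbX : (b : ℝ) ≤ X := by
    have : (b : ℝ) ≤ c := by exact_mod_cast (by omega : b ≤ c)
    linarith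
  have hwa := w_nonneg hA0 a
  have hwb := w_nonneg hA0 b
  have hwc := w_nonneg hA0 c
  have hwn : 0 ≤ w A a * w A b * w A c := mul_nonneg (mul_nonneg hwa hwb) hwc
  have h1 : 1 ≤ Y * (w A a * w A b * w A c) :=
    hone.trans (mul_le_mul_of_nonneg_right hH hwn)
  have hma := mem_Icc ha haX
  have hmb := mem_Icc hb hbX
  have hmc := mem_Icc (by omega : 0 < c) hcX
  simp only [Finset.coe_union, Finset.coe_image, Set.mem_union, Set.mem_image, Finset.mem_coe,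
    Finset.mem_filter, Finset.mem_product]
  rcases le_total a b with hab | hab
  · rw [min_eq_left hab] at hmin
    have hs : Real.sqrt (w A a) * Real.sqrt (w A a) = w A a := Real.mul_self_sqrt hwa
    have h2 : 1 ≤ Y * ((Real.sqrt (w A a) * w A b) * (Real.sqrt (w A a) * w A c)) := by
      calc 1 ≤ Y * (w A a * w A b * w A c) := h1
        _ = Y * ((Real.sqrt (w A a) * Real.sqrt (w A a)) * w A b * w A c) := by rw [hs]
        _ = _ := by ring
    rcases two (mul_nonneg (Real.sqrt_nonneg _) hwb) (mul_nonneg (Real.sqrt_nonneg _) hwc)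
      hV hVY h2 with h | h
    · exact Or.inl (Or.inl (Or.inl ⟨(a, b), ⟨⟨⟨hma, hmin⟩, hmb⟩, h⟩, by simp [hc]⟩))
    · refine Or.inl (Or.inl (Or.inr ⟨(a, c), ⟨⟨⟨hma, hmin⟩, hmc⟩, h⟩, ?_⟩))
      simp only [Prod.mk.injEq, true_and, and_true]
      omega
  · rw [min_eq_right hab] at hmin
    have hs : Real.sqrt (w A b) * Real.sqrt (w A b) = w A b := Real.mul_self_sqrt hwb
    have h2 : 1 ≤ Y * ((Real.sqrt (w A b) * w A a) * (Real.sqrt (w A b) * w A c)) := by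
      calc 1 ≤ Y * (w A a * w A b * w A c) := h1
        _ = Y * (w A a * (Real.sqrt (w A b) * Real.sqrt (w A b)) * w A c) := by rw [hs]
        _ = _ := by ring
    rcases two (mul_nonneg (Real.sqrt_nonneg _) hwa) (mul_nonneg (Real.sqrt_nonneg _) hwc)
      hV hVY h2 with h | h
    · exact Or.inl (Or.inr ⟨(b, a), ⟨⟨⟨hmb, hmin⟩, hma⟩, h⟩, by simp [hc]⟩)
    · refine Or.inr ⟨(b, c), ⟨⟨⟨hmb, hmin⟩, hmc⟩, h⟩, ?_⟩
      simp only [Prod.mk.injEq, and_true]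
      omega

theorem one_le_sum {X : ℝ} (hX : 1 ≤ X) :
    1 ≤ ∑ u ∈ Finset.Icc 1 ⌊X⌋₊, w (1 + 3 * Real.log X) u := by
  have hL : 0 ≤ Real.log X := Real.log_nonneg hX
  have hA0 : (0 : ℝ) ≤ 1 + 3 * Real.log X := by positivity
  have h1 : w (1 + 3 * Real.log X) 1 ≤ ∑ u ∈ Finset.Icc 1 ⌊X⌋₊, w (1 + 3 * Real.log X) u :=
    Finset.single_le_sum (fun u _ => w_nonneg hA0 u) (mem_Icc one_pos (by simpa using hX))
  rwa [w_one] at h1

/-- The bounds for `Small X Y` and its members. -/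
theorem main {δ : ℝ} (hδ : 0 < δ) : ∃ C : ℝ, 0 ≤ C ∧ ∀ X Y : ℝ, 1 ≤ X → 0 < Y →
    (Small X Y).Finite ∧ ((Small X Y).ncard : ℝ) ≤ C * X ^ δ * Y ^ (2 / 3 : ℝ) ∧
    ((members (Small X Y)).ncard : ℝ) ≤ C * X ^ δ * Y ^ (1 / 2 : ℝ) := by
  obtain ⟨C, hC, hsum⟩ := sum_w_le (δ := δ / 2) (by positivity)
  refine ⟨3 * C ^ 2, by positivity, fun X Y hX hY => ?_⟩
  have hX0 : 0 < X := by linarith
  have hW := hsum X hX
  have hW1 := one_le_sum hX
  set A : ℝ := 1 + 3 * Real.log X with hA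
  have hL : 0 ≤ Real.log X := Real.log_nonneg hX
  have hA0 : 0 ≤ A := by positivity
  set W : ℝ := ∑ u ∈ Finset.Icc 1 ⌊X⌋₊, w A u with hWdef
  have hW2 : W ^ 2 ≤ C ^ 2 * X ^ δ := by
    have h1 : W ^ 2 ≤ (C * X ^ (δ / 2)) ^ 2 := pow_le_pow_left₀ (by linarith) hW 2
    have h2 : (C * X ^ (δ / 2)) ^ 2 = C ^ 2 * X ^ δ := by
      rw [mul_pow, ← Real.rpow_natCast (X ^ (δ / 2)), ← Real.rpow_mul hX0.le]
      norm_num
    linarith
  have hWW : W ≤ W ^ 2 := by nlinarith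
  have hV3 : ((Y ^ (2 / 3 : ℝ)) ^ 3 : ℝ) = Y ^ 2 := by
    rw [← Real.rpow_natCast (Y ^ (2 / 3 : ℝ)), ← Real.rpow_mul hY.le, ← Real.rpow_natCast Y]
    norm_num
  have hV2 : ((Y ^ (1 / 2 : ℝ)) ^ 2 : ℝ) = Y := by
    rw [← Real.rpow_natCast (Y ^ (1 / 2 : ℝ)), ← Real.rpow_mul hY.le]
    norm_num
  have hV3p : 0 ≤ Y ^ (2 / 3 : ℝ) := by positivity
  have hV2p : 0 ≤ Y ^ (1 / 2 : ℝ) := by positivity
  have hsub := small_subset (Y := Y) hV3p hV3 hX
  have hsub2 := members_subset (Y := Y) hV2p hV2 hX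
  rw [← hA] at hsub hsub2
  refine ⟨Set.Finite.subset (Finset.finite_toSet _) hsub, ?_, ?_⟩
  · have h1 := Set.ncard_le_ncard hsub (Finset.finite_toSet _)
    rw [Set.ncard_coe_finset] at h1
    have h2 := card_pairs hA0 hV3p (Finset.Icc 1 ⌊X⌋₊)
    rw [← hWdef] at h2
    have h3 : ((Small X Y).ncard : ℝ) ≤ 3 * (Y ^ (2 / 3 : ℝ) * W ^ 2) := by
      have h4 := h1.trans ((Finset.card_union_le _ _).trans
        (Nat.add_le_add ((Finset.card_union_le _ _).trans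
          (Nat.add_le_add Finset.card_image_le Finset.card_image_le)) Finset.card_image_le))
      have h5 : ((Small X Y).ncard : ℝ) ≤
          ((((Finset.Icc 1 ⌊X⌋₊ ×ˢ Finset.Icc 1 ⌊X⌋₊).filter fun q =>
            1 ≤ Y ^ (2 / 3 : ℝ) * (w A q.1 * w A q.2)).card : ℕ) : ℝ) +
          ((((Finset.Icc 1 ⌊X⌋₊ ×ˢ Finset.Icc 1 ⌊X⌋₊).filter fun q =>
            1 ≤ Y ^ (2 / 3 : ℝ) * (w A q.1 * w A q.2)).card : ℕ) : ℝ) +
          ((((Finset.Icc 1 ⌊X⌋₊ ×ˢ Finset.Icc 1 ⌊X⌋₊).filter fun q =>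
            1 ≤ Y ^ (2 / 3 : ℝ) * (w A q.1 * w A q.2)).card : ℕ) : ℝ) := by
        exact_mod_cast h4
      linarith
    calc ((Small X Y).ncard : ℝ) ≤ 3 * (Y ^ (2 / 3 : ℝ) * W ^ 2) := h3
      _ ≤ 3 * (Y ^ (2 / 3 : ℝ) * (C ^ 2 * X ^ δ)) := by
          have := mul_le_mul_of_nonneg_left hW2 hV3p
          linarith
      _ = _ := by ring
  · have h1 := Set.ncard_le_ncard hsub2 (Finset.finite_toSet _)
    rw [Set.ncard_coe_finset] at h1
    have h2 := card_pairs hA0 hV2p (Finset.Icc 1 ⌊X⌋₊)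
    have h2' := card_singles hA0 hV2p (Finset.Icc 1 ⌊X⌋₊)
    rw [← hWdef] at h2 h2'
    have h3 : ((members (Small X Y)).ncard : ℝ) ≤ 3 * (Y ^ (1 / 2 : ℝ) * W ^ 2) := by
      have h4 := h1.trans ((Finset.card_union_le _ _).trans
        (Nat.add_le_add ((Finset.card_union_le _ _).trans
          (Nat.add_le_add le_rfl Finset.card_image_le)) Finset.card_image_le))
      have h5 : ((members (Small X Y)).ncard : ℝ) ≤
          ((((Finset.Icc 1 ⌊X⌋₊).filter fun u => 1 ≤ Y ^ (1 / 2 : ℝ) * w A u).card : ℕ) : ℝ) +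
          ((((Finset.Icc 1 ⌊X⌋₊ ×ˢ Finset.Icc 1 ⌊X⌋₊).filter fun q =>
            1 ≤ Y ^ (1 / 2 : ℝ) * (w A q.1 * w A q.2)).card : ℕ) : ℝ) +
          ((((Finset.Icc 1 ⌊X⌋₊ ×ˢ Finset.Icc 1 ⌊X⌋₊).filter fun q =>
            1 ≤ Y ^ (1 / 2 : ℝ) * (w A q.1 * w A q.2)).card : ℕ) : ℝ) := by
        exact_mod_cast h4
      have h6 : Y ^ (1 / 2 : ℝ) * W ≤ Y ^ (1 / 2 : ℝ) * W ^ 2 :=
        mul_le_mul_of_nonneg_left hWW hV2p
      linarith
    calc ((members (Small X Y)).ncard : ℝ) ≤ 3 * (Y ^ (1 / 2 : ℝ) * W ^ 2) := h3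
      _ ≤ 3 * (Y ^ (1 / 2 : ℝ) * (C ^ 2 * X ^ δ)) := by
          have := mul_le_mul_of_nonneg_left hW2 hV2p
          linarith
      _ = _ := by ring

/-- The bound for the triples with `min(a, b) ≤ Z`. -/
theorem mainMin {δ : ℝ} (hδ : 0 < δ) : ∃ C : ℝ, 0 ≤ C ∧ ∀ X Y Z : ℝ, 1 ≤ X → 0 < Y → 0 < Z →
    ((withMin (Small X Y) Z).ncard : ℝ) ≤ C * X ^ δ * (Y * Z) ^ (1 / 2 : ℝ) := by
  obtain ⟨C, hC, hsum⟩ := sum_w_le (δ := δ / 2) (by positivity)
  refine ⟨4 * C ^ 2, by positivity, fun X Y Z hX hY hZ => ?_⟩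
  have hX0 : 0 < X := by linarith
  have hW := hsum X hX
  have hW1 := one_le_sum hX
  have hsub := withMin_subset (X := X) (Y := Y) (Z := Z) (V := Y ^ (1 / 2 : ℝ)) (by positivity)
    (by
      rw [← Real.rpow_natCast (Y ^ (1 / 2 : ℝ)), ← Real.rpow_mul hY.le]
      norm_num) hX
  set A : ℝ := 1 + 3 * Real.log X with hA
  have hL : 0 ≤ Real.log X := Real.log_nonneg hX
  have hA0 : 0 ≤ A := by positivity
  set W : ℝ := ∑ u ∈ Finset.Icc 1 ⌊X⌋₊, w A u with hWdef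
  have hW2 : W ^ 2 ≤ C ^ 2 * X ^ δ := by
    have h1 : W ^ 2 ≤ (C * X ^ (δ / 2)) ^ 2 := pow_le_pow_left₀ (by linarith) hW 2
    have h2 : (C * X ^ (δ / 2)) ^ 2 = C ^ 2 * X ^ δ := by
      rw [mul_pow, ← Real.rpow_natCast (X ^ (δ / 2)), ← Real.rpow_mul hX0.le]
      norm_num
    linarith
  have hV2p : 0 ≤ Y ^ (1 / 2 : ℝ) := by positivity
  set R : Finset ℕ := (Finset.Icc 1 ⌊X⌋₊).filter fun u : ℕ => (u : ℝ) ≤ Z with hR
  have hRS : R ⊆ Finset.Icc 1 ⌊X⌋₊ := Finset.filter_subset _ _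
  have hRc : (R.card : ℝ) ≤ Z := by
    have h1 : R ⊆ Finset.Icc 1 ⌊Z⌋₊ := by
      intro u hu
      obtain ⟨h2, h3⟩ := Finset.mem_filter.1 hu
      exact Finset.mem_Icc.2 ⟨(Finset.mem_Icc.1 h2).1, Nat.le_floor h3⟩
    have h2 := Finset.card_le_card h1
    rw [Nat.card_Icc, Nat.add_sub_cancel] at h2
    exact le_trans (by exact_mod_cast h2) (Nat.floor_le hZ.le)
  have h1 := Set.ncard_le_ncard hsub (Finset.finite_toSet _)
  rw [Set.ncard_coe_finset] at h1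
  have h2 := card_mixed hA0 hV2p hRS
  rw [← hWdef] at h2
  set Q : ℕ := ((R ×ˢ Finset.Icc 1 ⌊X⌋₊).filter fun q =>
    1 ≤ Y ^ (1 / 2 : ℝ) * (Real.sqrt (w A q.1) * w A q.2)).card with hQ
  have h4 : (withMin (Small X Y) Z).ncard ≤ Q + Q + Q + Q :=
    h1.trans ((Finset.card_union_le _ _).trans (Nat.add_le_add ((Finset.card_union_le _ _).trans
      (Nat.add_le_add ((Finset.card_union_le _ _).trans
        (Nat.add_le_add Finset.card_image_le Finset.card_image_le)) Finset.card_image_le))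
      Finset.card_image_le))
  have h5 : ((withMin (Small X Y) Z).ncard : ℝ) ≤ (Q : ℝ) + Q + Q + Q := by exact_mod_cast h4
  have h6 : Real.sqrt (R.card * W) * W ≤ Z ^ (1 / 2 : ℝ) * W ^ 2 := by
    have h7 : Real.sqrt (R.card * W) ≤ Z ^ (1 / 2 : ℝ) * W := by
      rw [← Real.sqrt_eq_rpow, Real.sqrt_le_left (by positivity), mul_pow, Real.sq_sqrt hZ.le]
      have h8 : (R.card : ℝ) * W ≤ Z * W := mul_le_mul_of_nonneg_right hRc (by linarith)
      have h9 : Z * W ≤ Z * W ^ 2 := mul_le_mul_of_nonneg_left (by nlinarith) hZ.le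
      linarith
    calc Real.sqrt (R.card * W) * W ≤ Z ^ (1 / 2 : ℝ) * W * W :=
          mul_le_mul_of_nonneg_right h7 (by linarith)
      _ = _ := by ring
  calc ((withMin (Small X Y) Z).ncard : ℝ) ≤ (Q : ℝ) + Q + Q + Q := h5
    _ ≤ 4 * (Y ^ (1 / 2 : ℝ) * (Z ^ (1 / 2 : ℝ) * W ^ 2)) := by
        have := mul_le_mul_of_nonneg_left h6 hV2p
        linarith
    _ ≤ 4 * (Y ^ (1 / 2 : ℝ) * (Z ^ (1 / 2 : ℝ) * (C ^ 2 * X ^ δ))) := by
        have h10 : Z ^ (1 / 2 : ℝ) * W ^ 2 ≤ Z ^ (1 / 2 : ℝ) * (C ^ 2 * X ^ δ) :=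
          mul_le_mul_of_nonneg_left hW2 (by positivity)
        have := mul_le_mul_of_nonneg_left h10 hV2p
        linarith
    _ = _ := by
        rw [Real.mul_rpow hY.le hZ.le]; ring

theorem exceptions_subset {ε X : ℝ} (hε : 0 < ε) (_hX : 1 ≤ X) :
    Exceptions ε X ⊆ Small X (X ^ (1 / (1 + ε))) := by
  rintro t ⟨hadm, hcX, hH⟩
  refine ⟨hadm, hcX, ?_⟩
  have h1 : H (t.1 * t.2.1 * t.2.2) ^ (1 + ε) ≤ X := (not_lt.1 hH).trans hcX
  have h0 := H_pos (t.1 * t.2.1 * t.2.2)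
  have h2 := Real.rpow_le_rpow (Real.rpow_nonneg h0.le _) h1
    (by positivity : (0 : ℝ) ≤ 1 / (1 + ε))
  rwa [← Real.rpow_mul h0.le, mul_one_div_cancel (by positivity), Real.rpow_one] at h2

/-- For every `δ > 0` there is `C` such that for all `X ≥ 1`:

(1) for all `Y > 0` there are at most `C X ^ δ Y ^ (2/3)` admissible triples with `c ≤ X` and
`H(abc) ≤ Y`, at most `C X ^ δ (Y Z) ^ (1/2)` of them have `min(a, b) ≤ Z` (for all `Z > 0`), and at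
most `C X ^ δ Y ^ (1/2)` integers are a member of such a triple;

(2) for all `ε > 0` there are at most `C X ^ (2 / (3 (1 + ε)) + δ)` admissible triples with `c ≤ X`
which violate the inequality `c < H(abc) ^ (1 + ε)`, and at most `C X ^ (1 / (2 (1 + ε)) + δ)`
integers are a member of such a triple. -/
theorem result : ∀ δ : ℝ, 0 < δ → ∃ C : ℝ, ∀ X : ℝ, 1 ≤ X →
    (∀ Y : ℝ, 0 < Y → (Small X Y).Finite ∧
      ((Small X Y).ncard : ℝ) ≤ C * X ^ δ * Y ^ (2 / 3 : ℝ) ∧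
      (∀ Z : ℝ, 0 < Z →
        ((withMin (Small X Y) Z).ncard : ℝ) ≤ C * X ^ δ * (Y * Z) ^ (1 / 2 : ℝ)) ∧
      ((members (Small X Y)).ncard : ℝ) ≤ C * X ^ δ * Y ^ (1 / 2 : ℝ)) ∧
    (∀ ε : ℝ, 0 < ε → (Exceptions ε X).Finite ∧
      ((Exceptions ε X).ncard : ℝ) ≤ C * X ^ (2 / (3 * (1 + ε)) + δ) ∧
      ((members (Exceptions ε X)).ncard : ℝ) ≤ C * X ^ (1 / (2 * (1 + ε)) + δ)) := by
  intro δ hδ
  obtain ⟨C1, hC1, hmain⟩ := main hδ
  obtain ⟨C2, hC2, hmin⟩ := mainMin hδ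
  have hmain' : ∀ X Y : ℝ, 1 ≤ X → 0 < Y →
      (Small X Y).Finite ∧ ((Small X Y).ncard : ℝ) ≤ (C1 + C2) * X ^ δ * Y ^ (2 / 3 : ℝ) ∧
      ((members (Small X Y)).ncard : ℝ) ≤ (C1 + C2) * X ^ δ * Y ^ (1 / 2 : ℝ) := by
    intro X Y hX hY
    obtain ⟨h1, h2, h3⟩ := hmain X Y hX hY
    have hX0 : 0 < X := by linarith
    refine ⟨h1, h2.trans ?_, h3.trans ?_⟩
    · have : 0 ≤ C2 * X ^ δ * Y ^ (2 / 3 : ℝ) := by positivity
      linarith
    · have : 0 ≤ C2 * X ^ δ * Y ^ (1 / 2 : ℝ) := by positivity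
      linarith
  refine ⟨C1 + C2, fun X hX => ⟨fun Y hY => ?_, fun ε hε => ?_⟩⟩
  · obtain ⟨h1, h2, h3⟩ := hmain' X Y hX hY
    refine ⟨h1, h2, fun Z hZ => (hmin X Y Z hX hY hZ).trans ?_, h3⟩
    have hX0 : 0 < X := by linarith
    have : 0 ≤ C1 * X ^ δ * (Y * Z) ^ (1 / 2 : ℝ) := by positivity
    linarith
  have hX0 : 0 < X := by linarith
  have hsub := exceptions_subset hε hX
  obtain ⟨h1, h2, h3⟩ := hmain' X (X ^ (1 / (1 + ε))) hX (by positivity)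
  have hmf : (members (Small X (X ^ (1 / (1 + ε))))).Finite := by
    have : members (Small X (X ^ (1 / (1 + ε)))) ⊆
        (fun t : ℕ × ℕ × ℕ => t.1) '' (Small X (X ^ (1 / (1 + ε)))) ∪
        ((fun t : ℕ × ℕ × ℕ => t.2.1) '' (Small X (X ^ (1 / (1 + ε)))) ∪
        (fun t : ℕ × ℕ × ℕ => t.2.2) '' (Small X (X ^ (1 / (1 + ε))))) := by
      rintro n ⟨t, ht, rfl | rfl | rfl⟩
      · exact Or.inl ⟨t, ht, rfl⟩
      · exact Or.inr (Or.inl ⟨t, ht, rfl⟩)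
      · exact Or.inr (Or.inr ⟨t, ht, rfl⟩)
    exact ((h1.image _).union ((h1.image _).union (h1.image _))).subset this
  have hmsub : members (Exceptions ε X) ⊆ members (Small X (X ^ (1 / (1 + ε)))) := by
    rintro n ⟨t, ht, h⟩
    exact ⟨t, hsub ht, h⟩
  refine ⟨h1.subset hsub, ?_, ?_⟩
  · have h4 : ((Exceptions ε X).ncard : ℝ) ≤ ((Small X (X ^ (1 / (1 + ε)))).ncard : ℝ) := by
      exact_mod_cast Set.ncard_le_ncard hsub h1
    refine h4.trans (h2.trans (le_of_eq ?_))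
    rw [← Real.rpow_mul hX0.le, Real.rpow_add hX0]
    have : 1 / (1 + ε) * (2 / 3 : ℝ) = 2 / (3 * (1 + ε)) := by
      field_simp
    rw [this]; ring
  · have h4 : ((members (Exceptions ε X)).ncard : ℝ) ≤
        ((members (Small X (X ^ (1 / (1 + ε))))).ncard : ℝ) := by
      exact_mod_cast Set.ncard_le_ncard hmsub hmf
    refine h4.trans (h3.trans (le_of_eq ?_))
    rw [← Real.rpow_mul hX0.le, Real.rpow_add hX0]
    have : 1 / (1 + ε) * (1 / 2 : ℝ) = 1 / (2 * (1 + ε)) := by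
      field_simp
    rw [this]; ring

end Pool.Agent.Results.MP_14cf73_nt.FewExceptions
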