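import Pool.Agent.Q272.AbcH.Main

/-!
The `abc`-type inequality with `H(n) = γ(n) / (log γ(n))^{ω(n)}`: for every
`κ < 2 + 2 log (3π/4) = 3.714…` there are infinitely many admissible triples `(a, b, c)` with
`c > H exp (κ log H / log log H)`, where `H = max (H(abc), e^e)`.
-/

set_option autoImplicit false

namespace Pool.Agent.Results.MP_14cf73_nt.LowerBoundConstant

/-- The radical `γ(n)`: the product of the distinct primes dividing `n`. -/
def gam (n : ℕ) : ℕ := ∏ p ∈ n.primeFactors, p

/-- `ω(n)`: the number of distinct primes dividing `n`. -/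
def om (n : ℕ) : ℕ := n.primeFactors.card

/-- `H(n) = γ(n) / (log γ(n)) ^ ω(n)`. -/
noncomputable def H (n : ℕ) : ℝ := (gam n : ℝ) / Real.log (gam n : ℝ) ^ om n

/-- Admissible triples: positive integers with `a + b = c` and `gcd(a, b, c) = 1`. -/
def Admissible (a b c : ℕ) : Prop :=
  0 < a ∧ 0 < b ∧ 0 < c ∧ a + b = c ∧ Nat.gcd (Nat.gcd a b) c = 1

/-- `max (H(abc), e^e)`. -/
noncomputable def Hmax (a b c : ℕ) : ℝ := max (H (a * b * c)) (Real.exp (Real.exp 1))

lemma div_log_mono {x y : ℝ} (hx : Real.exp 1 ≤ x) (hxy : x ≤ y) :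
    x / Real.log x ≤ y / Real.log y := by
  have h := Real.log_div_self_antitoneOn (show x ∈ {x | Real.exp 1 ≤ x} from hx)
    (show y ∈ {x | Real.exp 1 ≤ x} from hx.trans hxy) hxy
  have hx0 : 0 < x := lt_of_lt_of_le (Real.exp_pos 1) hx
  have hy0 : 0 < y := lt_of_lt_of_le hx0 hxy
  have hlx : 0 < Real.log x := by
    have := Real.log_le_log (Real.exp_pos 1) hx
    rw [Real.log_exp] at this
    linarith
  have hly : 0 < Real.log y := lt_of_lt_of_le hlx (Real.log_le_log hx0 hxy)
  simp only at h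
  rw [div_le_div_iff₀ hy0 hx0] at h
  rw [div_le_div_iff₀ hlx hly]
  linarith

theorem exists_large (κ : ℝ) (hκ : κ < 2 + 2 * Real.log (3 * Real.pi / 4)) (B : ℝ) :
    ∃ a b c : ℕ, Admissible a b c ∧ B ≤ Real.log c ∧
      Hmax a b c * Real.exp (κ * (Real.log (Hmax a b c) / Real.log (Real.log (Hmax a b c)))) <
        c := by
  -- replace `κ` by `max κ 1`
  have hc1 := Q272.AbcH.c0_ge
  have h2c : 2 * Q272.AbcH.c0 = 2 + 2 * Real.log (3 * Real.pi / 4) := by
    unfold Q272.AbcH.c0; ring
  set κ' : ℝ := max κ 1 with hκ'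
  have hκ'0 : 0 < κ' := lt_of_lt_of_le one_pos (le_max_right _ _)
  have hκ'2 : κ' < 2 * Q272.AbcH.c0 := by
    rw [hκ', max_lt_iff]
    exact ⟨by rw [h2c]; exact hκ, by linarith⟩
  have he : 0 < Real.exp 1 := Real.exp_pos 1
  obtain ⟨a, b, c, hadm, hB, V, hHV, hV⟩ :=
    Q272.AbcH.main_aux κ' hκ'0 hκ'2 (max B (Real.exp 1 + κ' * Real.exp 1 + 1))
  have hB1 : B ≤ Real.log c := (le_max_left _ _).trans hB
  have hB2 : Real.exp 1 + κ' * Real.exp 1 + 1 ≤ Real.log c := (le_max_right _ _).trans hB
  refine ⟨a, b, c, hadm, hB1, ?_⟩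
  have hc0 : (0 : ℝ) < c := by exact_mod_cast hadm.2.2.1
  set L := Real.log (c : ℝ) with hL
  have hκe : 0 < κ' * Real.exp 1 := by positivity
  have hLe : Real.exp 1 ≤ L := by linarith
  have hHeq : H (a * b * c) = Q272.AbcH.H (a * b * c) := rfl
  set M := Hmax a b c with hM
  have hMe : Real.exp (Real.exp 1) ≤ M := le_max_right _ _
  have hM0 : 0 < M := lt_of_lt_of_le (Real.exp_pos _) hMe
  set h := Real.log M with hh
  have hhe : Real.exp 1 ≤ h := by
    rw [hh, ← Real.log_exp (Real.exp 1)]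
    exact Real.log_le_log (Real.exp_pos _) hMe
  have hlh : 1 ≤ Real.log h := by
    rw [← Real.log_exp 1]
    exact Real.log_le_log he hhe
  set X := max (L - V) (Real.exp 1) with hX
  have hMX : M ≤ Real.exp X := by
    rw [hM]
    unfold Hmax
    apply max_le
    · rw [hHeq]
      exact hHV.trans (Real.exp_le_exp.2 (le_max_left _ _))
    · exact Real.exp_le_exp.2 (le_max_right _ _)
  have hhX : h ≤ X := by
    rw [hh, ← Real.log_exp X]
    exact Real.log_le_log hM0 hMX
  have hratio : h / Real.log h ≤ X / Real.log X := div_log_mono hhe hhX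
  have hmain : X + κ' * (X / Real.log X) < L := by
    rcases le_total (L - V) (Real.exp 1) with hcase | hcase
    · have hXe : X = Real.exp 1 := max_eq_right hcase
      rw [hXe, Real.log_exp, div_one]
      linarith
    · have hXe : X = L - V := max_eq_left hcase
      have hlL : 0 < Real.log L := by
        have := Real.log_le_log he hLe
        rw [Real.log_exp] at this
        linarith
      have hV0 : 0 ≤ V := by
        have : 0 ≤ κ' * (L / Real.log L) := by
          have : 0 ≤ L := by linarith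
          positivity
        linarith
      have hXL : X / Real.log X ≤ L / Real.log L := by
        apply div_log_mono
        · rw [hXe]; exact hcase
        · rw [hXe]; linarith
      have := mul_le_mul_of_nonneg_left hXL hκ'0.le
      rw [hXe] at this ⊢
      linarith
  have hh0 : 0 ≤ h / Real.log h := by
    apply div_nonneg <;> linarith
  calc M * Real.exp (κ * (h / Real.log h))
      = Real.exp (h + κ * (h / Real.log h)) := by rw [Real.exp_add, hh, Real.exp_log hM0]
    _ < Real.exp L := by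
        apply Real.exp_lt_exp.2
        have h1 : κ * (h / Real.log h) ≤ κ' * (h / Real.log h) :=
          mul_le_mul_of_nonneg_right (le_max_left _ _) hh0
        have h2 : κ' * (h / Real.log h) ≤ κ' * (X / Real.log X) :=
          mul_le_mul_of_nonneg_left hratio hκ'0.le
        linarith
    _ = c := Real.exp_log hc0

/-- For every `κ < 2 + 2 log (3π/4)` there are infinitely many admissible triples `(a, b, c)`
with `c > H exp (κ log H / log log H)`, `H = max (H(abc), e^e)`. -/
theorem result (κ : ℝ) (hκ : κ < 2 + 2 * Real.log (3 * Real.pi / 4)) :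
    {t : ℕ × ℕ × ℕ | Admissible t.1 t.2.1 t.2.2 ∧
      (t.2.2 : ℝ) > Hmax t.1 t.2.1 t.2.2 * Real.exp (κ *
        (Real.log (Hmax t.1 t.2.1 t.2.2) / Real.log (Real.log (Hmax t.1 t.2.1 t.2.2))))}.Infinite
    := by
  intro hfin
  have hbdd : BddAbove ((fun t : ℕ × ℕ × ℕ => Real.log (t.2.2 : ℝ)) ''
      {t : ℕ × ℕ × ℕ | Admissible t.1 t.2.1 t.2.2 ∧
      (t.2.2 : ℝ) > Hmax t.1 t.2.1 t.2.2 * Real.exp (κ *
        (Real.log (Hmax t.1 t.2.1 t.2.2) /
          Real.log (Real.log (Hmax t.1 t.2.1 t.2.2))))}) := (hfin.image _).bddAbove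
  obtain ⟨U, hU⟩ := hbdd
  obtain ⟨a, b, c, hadm, hB, hlt⟩ := exists_large κ hκ (U + 1)
  have := hU ⟨(a, b, c), ⟨hadm, hlt⟩, rfl⟩
  simp only at this
  linarith

end Pool.Agent.Results.MP_14cf73_nt.LowerBoundConstant
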