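import Mathlib
import Pool.Agent.Q103.SD.Abc
import Pool.Agent.Results.MP_2ec8a3_nt.SmallDigits

/-!
# The inequality `c < H(abc)` for products of arbitrary powers of numbers with small digits

`H(n) = γ(n) / (log γ(n)) ^ ω(n)`. The triples `a + b = c` are composed of bases `q_i = F_i(t)` with
small digits (of either sign) in a large base `t`, with last digit `0`, `1` or `-1`, and small
coefficients; one member is composed of bases with last digit `0`, the other two of bases with last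
digit `1` or `-1`; the exponents are arbitrary. If the product of the bases that occur is squarefree
and `ω(abc) ≤ (1 - 3 ε) log t / log log t` (the order of magnitude of `ω` for a typical triple is only
`log log t`), then `c t ^ ε ≤ H(abc)`: for these triples the inequality of the question holds without a
constant, with exponent one and with a gain.

Proof: by our theorem `MP_2ec8a3_nt.SmallDigits` we have `c t ^ (1 - ε) ≤ γ(abc)`, and
`log γ(abc) ≤ (3 K + 4) log t` gives `(log γ(abc)) ^ ω(abc) ≤ t ^ (1 - 2 ε)`.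
-/

set_option autoImplicit false

namespace Pool.Agent.Results.MP_14cf73_nt.SmallDigits

open Polynomial Finset

/-- The radical `γ(n)`: the product of the distinct primes dividing `n`. -/
def gam (n : ℕ) : ℕ := ∏ p ∈ n.primeFactors, p

/-- `ω(n)`: the number of distinct primes dividing `n`. -/
def om (n : ℕ) : ℕ := n.primeFactors.card

/-- `H(n) = γ(n) / (log γ(n)) ^ ω(n)`. -/
noncomputable def H (n : ℕ) : ℝ := (gam n : ℝ) / Real.log (gam n : ℝ) ^ om n

/-- Admissible triples: positive integers with `a + b = c` and `gcd(a, b, c) = 1`. -/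
def Admissible (a b c : ℕ) : Prop :=
  0 < a ∧ 0 < b ∧ a + b = c ∧ Nat.gcd (Nat.gcd a b) c = 1

/-- The set of the bases that occur in one of the three terms. -/
def used {n : ℕ} (l b c : Fin n → ℕ) : Finset (Fin n) :=
  Finset.univ.filter (fun i => l i ≠ 0 ∨ b i ≠ 0 ∨ c i ≠ 0)

/-- The bases `F_i(t)`, `i < n`, are the values at `t` of nonconstant polynomials with coefficients
(digits) of absolute value at most `B` and last digit `0`, `1` or `-1`, of total degree at most
`K`; the coefficients `α`, `β`, `γ` are nonzero of absolute value at most `B`; the first term is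
composed of bases with last digit `0`, the other two of bases with last digit `1` or `-1`. There is
no condition on the size of the exponents `l`, `b`, `c`. -/
structure Terms (K : ℕ) (B : ℝ) {n : ℕ} (F : Fin n → ℤ[X]) (α β γ : ℤ)
    (l b c : Fin n → ℕ) : Prop where
  pos : ∀ i, 0 < (F i).natDegree
  deg : ∑ i, (F i).natDegree ≤ K
  digits : ∀ i j, |((F i).coeff j : ℝ)| ≤ B
  last : ∀ i, (F i).coeff 0 = 0 ∨ (F i).coeff 0 = 1 ∨ (F i).coeff 0 = -1
  ne : α ≠ 0 ∧ β ≠ 0 ∧ γ ≠ 0
  coef : |(α : ℝ)| ≤ B ∧ |(β : ℝ)| ≤ B ∧ |(γ : ℝ)| ≤ B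
  first : ∀ i, l i ≠ 0 → (F i).coeff 0 = 0
  second : ∀ i, b i ≠ 0 → (F i).coeff 0 ≠ 0
  third : ∀ i, c i ≠ 0 → (F i).coeff 0 ≠ 0

/-- the value of a term -/
def term {n : ℕ} (t : ℕ) (F : Fin n → ℤ[X]) (α : ℤ) (l : Fin n → ℕ) : ℤ :=
  α * ∏ i, (F i).eval (t : ℤ) ^ l i

theorem gam_le {n : ℕ} (t : ℕ) (F : Fin n → ℤ[X]) (α β γ : ℤ) (l b c : Fin n → ℕ)
    (h0 : term t F α l * term t F β b * term t F γ c ≠ 0) :
    (gam (term t F α l * term t F β b * term t F γ c).natAbs : ℤ) ≤
      |α * β * γ * ∏ i ∈ used l b c, (F i).eval (t : ℤ)| := by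
  set N := term t F α l * term t F β b * term t F γ c with hN
  have hne : α * β * γ * ∏ i ∈ used l b c, (F i).eval (t : ℤ) ≠ 0 := by
    intro h
    apply h0
    rw [hN]
    rcases mul_eq_zero.1 h with h | h
    · rcases mul_eq_zero.1 h with h | h
      · rcases mul_eq_zero.1 h with h | h
        · simp [term, h]
        · simp [term, h]
      · simp [term, h]
    · obtain ⟨i, hi, h1⟩ := Finset.prod_eq_zero_iff.1 h
      have hz : ∀ e : Fin n → ℕ, e i ≠ 0 → ∏ j, (F j).eval (t : ℤ) ^ e j = 0 := fun e he =>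
        Finset.prod_eq_zero (Finset.mem_univ i) (by rw [h1, zero_pow he])
      rcases (Finset.mem_filter.mp hi).2 with h | h | h
      · simp [term, hz l h]
      · simp [term, hz b h]
      · simp [term, hz c h]
  have hdvd : gam N.natAbs ∣ (α * β * γ * ∏ i ∈ used l b c, (F i).eval (t : ℤ)).natAbs := by
    unfold gam
    refine Finset.prod_primes_dvd _ (fun p hp => (Nat.prime_of_mem_primeFactors hp).prime) ?_
    intro p hp
    have hp1 := Nat.prime_of_mem_primeFactors hp
    have hp2 := Nat.dvd_of_mem_primeFactors hp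
    have hpp : Prime (p : ℤ) := Nat.prime_iff_prime_int.mp hp1
    have hp3 : (p : ℤ) ∣ N := Int.natCast_dvd.2 hp2
    rw [← Int.natCast_dvd]
    have hterm : ∀ (ξ : ℤ) (e : Fin n → ℕ), (∀ i, e i ≠ 0 → i ∈ used l b c) →
        (p : ℤ) ∣ term t F ξ e → (p : ℤ) ∣ ξ ∨ (p : ℤ) ∣ ∏ i ∈ used l b c, (F i).eval (t : ℤ) := by
      intro ξ e he hd
      rcases hpp.dvd_or_dvd hd with h | h
      · exact Or.inl h
      · right
        obtain ⟨i, -, hi⟩ := (hpp.dvd_finsetProd_iff _).mp h
        have hei : e i ≠ 0 := by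
          intro h1
          rw [h1, pow_zero] at hi
          exact hpp.not_dvd_one hi
        exact (hpp.dvd_of_dvd_pow hi).trans (Finset.dvd_prod_of_mem _ (he i hei))
    have m1 : ∀ i, l i ≠ 0 → i ∈ used l b c := fun i h => by simp [used, h]
    have m2 : ∀ i, b i ≠ 0 → i ∈ used l b c := fun i h => by simp [used, h]
    have m3 : ∀ i, c i ≠ 0 → i ∈ used l b c := fun i h => by simp [used, h]
    rcases hpp.dvd_or_dvd hp3 with h | h
    · rcases hpp.dvd_or_dvd h with h | h
      · rcases hterm α l m1 h with h | h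
        · exact ((h.mul_right _).mul_right _).mul_right _
        · exact h.mul_left _
      · rcases hterm β b m2 h with h | h
        · exact ((h.mul_left _).mul_right _).mul_right _
        · exact h.mul_left _
    · rcases hterm γ c m3 h with h | h
      · exact (h.mul_left _).mul_right _
      · exact h.mul_left _
  have h1 := Nat.le_of_dvd (Int.natAbs_pos.2 hne) hdvd
  rw [Int.abs_eq_natAbs]
  exact_mod_cast h1

/-- **Main theorem.** For all `K` and `ε > 0` there are `δ > 0` and `t₀` such that for all `t ≥ t₀` and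
all admissible triples `(a₁, a₂, a₃)` which, up to order and signs, consist of three terms with
small digits in the base `t` with arbitrary exponents: if the product of the bases that occur is
squarefree and `ω(a₁ a₂ a₃) log log t ≤ (1 - 3 ε) log t`, then `a₃ t ^ ε ≤ H(a₁ a₂ a₃)`. -/
theorem result (K : ℕ) (ε : ℝ) (hε : 0 < ε) : ∃ δ : ℝ, 0 < δ ∧ ∃ t₀ : ℕ, ∀ t : ℕ, t₀ ≤ t →
    ∀ (n : ℕ) (F : Fin n → ℤ[X]) (α β γ : ℤ) (l b c : Fin n → ℕ),
      Terms K ((t : ℝ) ^ δ) F α β γ l b c →
      term t F α l + term t F β b = term t F γ c →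
      (used l b c).Nonempty → Squarefree (∏ i ∈ used l b c, (F i).eval (t : ℤ)) →
      ∀ a₁ a₂ a₃ : ℕ, Admissible a₁ a₂ a₃ →
        ({a₁, a₂, a₃} : Multiset ℕ) =
          {(term t F α l).natAbs, (term t F β b).natAbs, (term t F γ c).natAbs} →
        (om (a₁ * a₂ * a₃) : ℝ) * Real.log (Real.log t) ≤ (1 - 3 * ε) * Real.log t →
        (a₃ : ℝ) * (t : ℝ) ^ ε ≤ H (a₁ * a₂ * a₃) := by
  obtain ⟨δ, hδ, t₀, h⟩ := Pool.Agent.Results.MP_2ec8a3_nt.SmallDigits.result K ε hε
  obtain ⟨M, hM⟩ : ∃ M : ℝ, M = 4 + 3 * (K : ℝ) := ⟨_, rfl⟩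
  have hM4 : 4 ≤ M := by
    rw [hM]
    have : (0 : ℝ) ≤ K := Nat.cast_nonneg _
    linarith
  obtain ⟨t₁, ht₁⟩ : ∃ t₁ : ℕ, Real.exp (Real.exp (Real.log M / ε)) ≤ t₁ := exists_nat_ge _
  refine ⟨min δ 1, lt_min hδ one_pos, max (max t₀ t₁) 8, ?_⟩
  intro t ht n F α β γ l b c hS heq hU hsq a₁ a₂ a₃ hadm hperm hom
  have htt0 : t₀ ≤ t := ((le_max_left _ _).trans (le_max_left _ _)).trans ht
  have htt1 : t₁ ≤ t := ((le_max_right _ _).trans (le_max_left _ _)).trans ht
  have ht8 : 8 ≤ t := (le_max_right _ _).trans ht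
  have ht8R : (8 : ℝ) ≤ t := by exact_mod_cast ht8
  have ht0 : (0 : ℝ) < t := by linarith
  have ht1 : (1 : ℝ) ≤ t := by linarith
  have hlogM : 0 < Real.log M := Real.log_pos (by linarith)
  have htexp : Real.exp (Real.exp (Real.log M / ε)) ≤ t := ht₁.trans (by exact_mod_cast htt1)
  have hlt : Real.exp (Real.log M / ε) ≤ Real.log t := by
    have := Real.log_le_log (Real.exp_pos _) htexp
    rwa [Real.log_exp] at this
  have hllt : Real.log M / ε ≤ Real.log (Real.log t) := by
    have := Real.log_le_log (Real.exp_pos _) hlt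
    rwa [Real.log_exp] at this
  have hL : 0 < Real.log t := lt_of_lt_of_le (Real.exp_pos _) hlt
  have hB1 : (t : ℝ) ^ (min δ 1) ≤ t ^ δ :=
    Real.rpow_le_rpow_of_exponent_le ht1 (min_le_left _ _)
  have hB2 : (t : ℝ) ^ (min δ 1) ≤ t := by
    calc (t : ℝ) ^ (min δ 1) ≤ (t : ℝ) ^ (1 : ℝ) :=
          Real.rpow_le_rpow_of_exponent_le ht1 (min_le_right _ _)
      _ = t := Real.rpow_one _
  -- the given theorem
  have hS' : Pool.Agent.Results.MP_2ec8a3_nt.SmallDigits.Terms K ((t : ℝ) ^ δ) F α β γ l b c :=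
    ⟨hS.pos, hS.deg, fun i j => (hS.digits i j).trans hB1, hS.last, hS.ne,
      ⟨hS.coef.1.trans hB1, hS.coef.2.1.trans hB1, hS.coef.2.2.trans hB1⟩, hS.first, hS.second,
      hS.third⟩
  have hmain := (h t htt0 n F α β γ l b c hS' heq).2
  obtain ⟨ha1, ha2, hsum, hgcd⟩ := hadm
  -- membership
  have hmem : ∀ m : ℕ, m = (term t F α l).natAbs ∨ m = (term t F β b).natAbs ∨
      m = (term t F γ c).natAbs ↔ m = a₁ ∨ m = a₂ ∨ m = a₃ := by
    intro m
    have e : m ∈ ({a₁, a₂, a₃} : Multiset ℕ) ↔ m ∈ ({(term t F α l).natAbs,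
        (term t F β b).natAbs, (term t F γ c).natAbs} : Multiset ℕ) := by rw [hperm]
    simp only [Multiset.insert_eq_cons, Multiset.mem_cons, Multiset.mem_singleton] at e
    exact e.symm
  have hprod : a₁ * a₂ * a₃ = (term t F α l * term t F β b * term t F γ c).natAbs := by
    have e := congrArg Multiset.prod hperm
    simp only [Multiset.insert_eq_cons, Multiset.prod_cons, Multiset.prod_singleton] at e
    rw [Int.natAbs_mul, Int.natAbs_mul, mul_assoc, e, mul_assoc]
  have hcop : IsCoprime (term t F α l) (term t F β b) := by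
    rw [Int.isCoprime_iff_gcd_eq_one]
    set d := Int.gcd (term t F α l) (term t F β b) with hd
    have d1 : (d : ℤ) ∣ term t F α l := Int.gcd_dvd_left _ _
    have d2 : (d : ℤ) ∣ term t F β b := Int.gcd_dvd_right _ _
    have d3 : (d : ℤ) ∣ term t F γ c := heq ▸ dvd_add d1 d2
    have hall : ∀ m : ℕ, m = a₁ ∨ m = a₂ ∨ m = a₃ → d ∣ m := by
      intro m hm
      rcases (hmem m).2 hm with h | h | h
      · rw [h]; exact Int.natCast_dvd.1 d1
      · rw [h]; exact Int.natCast_dvd.1 d2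
      · rw [h]; exact Int.natCast_dvd.1 d3
    have := Nat.dvd_gcd (Nat.dvd_gcd (hall a₁ (Or.inl rfl)) (hall a₂ (Or.inr (Or.inl rfl))))
      (hall a₃ (Or.inr (Or.inr rfl)))
    rw [hgcd] at this
    exact Nat.dvd_one.1 this
  -- the largest term
  obtain ⟨x, hx, hx3⟩ : ∃ x : ℤ, (x = term t F α l ∨ x = term t F β b ∨ x = term t F γ c) ∧
      x.natAbs = a₃ := by
    rcases (hmem a₃).2 (Or.inr (Or.inr rfl)) with h | h | h
    · exact ⟨_, Or.inl rfl, h.symm⟩
    · exact ⟨_, Or.inr (Or.inl rfl), h.symm⟩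
    · exact ⟨_, Or.inr (Or.inr rfl), h.symm⟩
  have key := (hmain hcop hU x hx).2.2 hsq
  have hxR : |(x : ℝ)| = (a₃ : ℝ) := by
    rw [← hx3, Nat.cast_natAbs]
    push_cast
    rfl
  have hgam : (Pool.Agent.Results.MP_2ec8a3_nt.SmallDigits.rad
      ((α * ∏ i, (F i).eval (t : ℤ) ^ l i) * (β * ∏ i, (F i).eval (t : ℤ) ^ b i) *
        (γ * ∏ i, (F i).eval (t : ℤ) ^ c i))) = gam (a₁ * a₂ * a₃) := by
    rw [hprod]
    rfl
  rw [hgam, hxR] at key
  -- the size of the radical
  have hN0 : term t F α l * term t F β b * term t F γ c ≠ 0 := by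
    intro h0
    rw [h0, Int.natAbs_zero] at hprod
    have : 0 < a₁ * a₂ * a₃ := by
      have : 0 < a₃ := by omega
      positivity
    omega
  have hG := gam_le t F α β γ l b c hN0
  rw [← hprod] at hG
  set G : ℝ := (gam (a₁ * a₂ * a₃) : ℝ) with hGdef
  have hG1 : 1 ≤ G := by
    have h1 : 0 < gam (a₁ * a₂ * a₃) := by
      unfold gam
      exact Finset.prod_pos fun p hp => (Nat.prime_of_mem_primeFactors hp).pos
    rw [hGdef]
    exact_mod_cast h1
  have hGt : G ≤ (t : ℝ) ^ (4 + 3 * K) := by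
    have h1 : G ≤ |(α : ℝ)| * |(β : ℝ)| * |(γ : ℝ)| *
        |((∏ i ∈ used l b c, (F i).eval (t : ℤ) : ℤ) : ℝ)| := by
      have h2 : ((gam (a₁ * a₂ * a₃) : ℤ) : ℝ) ≤
          ((|α * β * γ * ∏ i ∈ used l b c, (F i).eval (t : ℤ)| : ℤ) : ℝ) := by exact_mod_cast hG
      rw [Int.cast_abs, Int.cast_mul, Int.cast_mul, Int.cast_mul, abs_mul, abs_mul, abs_mul] at h2
      rw [hGdef]
      exact_mod_cast h2
    have h3 : |((∏ i ∈ used l b c, (F i).eval (t : ℤ) : ℤ) : ℝ)| ≤
        (t : ℝ) * ((2 * t) ^ K * (t : ℝ) ^ K) := by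
      set e : Fin n → ℕ := fun i => if i ∈ used l b c then 1 else 0 with he
      have e1 : ∏ i ∈ used l b c, (F i).eval (t : ℤ) = ∏ i, (F i).eval (t : ℤ) ^ e i := by
        rw [← Finset.prod_filter_mul_prod_filter_not Finset.univ (fun i => i ∈ used l b c)]
        have a1 : ∏ i ∈ Finset.univ.filter (fun i => i ∈ used l b c), (F i).eval (t : ℤ) ^ e i =
            ∏ i ∈ used l b c, (F i).eval (t : ℤ) := by
          rw [Finset.filter_mem_eq_inter, Finset.univ_inter]
          refine Finset.prod_congr rfl fun i hi => ?_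
          rw [he]
          simp [hi]
        have a2 : ∏ i ∈ Finset.univ.filter (fun i => i ∉ used l b c), (F i).eval (t : ℤ) ^ e i =
            1 := by
          refine Finset.prod_eq_one fun i hi => ?_
          rw [he]
          simp [(Finset.mem_filter.1 hi).2]
        rw [a1, a2, mul_one]
      have hB : ∀ i j, |((F i).coeff j : ℝ)| ≤ (t : ℝ) := fun i j => (hS.digits i j).trans hB2
      have hF1 : ∀ i, |(((F i).eval (t : ℤ) : ℤ) : ℝ)| ≤ (2 * t) ^ (F i).natDegree *
          (t : ℝ) ^ (F i).natDegree := by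
        intro i
        rw [Polynomial.eval_eq_sum_range, Int.cast_sum]
        refine (Finset.abs_sum_le_sum_abs _ _).trans ?_
        have h4 : ∀ j ∈ Finset.range ((F i).natDegree + 1),
            |(((F i).coeff j * (t : ℤ) ^ j : ℤ) : ℝ)| ≤ (t : ℝ) * (t : ℝ) ^ (F i).natDegree := by
          intro j hj
          rw [Finset.mem_range] at hj
          push_cast
          rw [abs_mul, abs_of_nonneg (by positivity : (0 : ℝ) ≤ (t : ℝ) ^ j)]
          exact mul_le_mul (hB i j) (pow_le_pow_right₀ ht1 (by omega)) (by positivity) ht0.le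
        refine (Finset.sum_le_sum h4).trans ?_
        rw [Finset.sum_const, Finset.card_range, nsmul_eq_mul]
        have hd := hS.pos i
        have h5 : (((F i).natDegree + 1 : ℕ) : ℝ) * t ≤ (2 * t) ^ (F i).natDegree := by
          obtain ⟨m, hm⟩ : ∃ m, (F i).natDegree = m + 1 := ⟨(F i).natDegree - 1, by omega⟩
          rw [hm]
          have h6 : ((m + 1 + 1 : ℕ) : ℝ) ≤ 2 * (2 * (t : ℝ)) ^ m := by
            have h7 : m + 1 ≤ 2 ^ m := Nat.lt_two_pow_self
            have h8 : ((m + 1 + 1 : ℕ) : ℝ) ≤ 2 * 2 ^ m := by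
              have : m + 1 + 1 ≤ 2 * 2 ^ m := by omega
              exact_mod_cast this
            have h9 : (2 : ℝ) ^ m ≤ (2 * (t : ℝ)) ^ m :=
              pow_le_pow_left₀ (by norm_num) (by linarith) m
            linarith
          calc ((m + 1 + 1 : ℕ) : ℝ) * t ≤ 2 * (2 * (t : ℝ)) ^ m * t :=
                mul_le_mul_of_nonneg_right h6 ht0.le
            _ = (2 * (t : ℝ)) ^ (m + 1) := by rw [pow_succ]; ring
        calc (((F i).natDegree + 1 : ℕ) : ℝ) * ((t : ℝ) * (t : ℝ) ^ (F i).natDegree)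
            = ((((F i).natDegree + 1 : ℕ) : ℝ) * t) * (t : ℝ) ^ (F i).natDegree := by ring
          _ ≤ _ := mul_le_mul_of_nonneg_right h5 (by positivity)
      rw [Int.cast_prod, Finset.abs_prod]
      have h4 : ∏ i ∈ used l b c, |(((F i).eval (t : ℤ) : ℤ) : ℝ)| ≤
          ∏ i ∈ used l b c, ((2 * (t : ℝ)) * t) ^ (F i).natDegree := by
        refine Finset.prod_le_prod (fun i _ => abs_nonneg _) fun i _ => ?_
        rw [mul_pow]
        exact hF1 i
      have h5 : ∏ i ∈ used l b c, ((2 * (t : ℝ)) * t) ^ (F i).natDegree ≤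
          ((2 * (t : ℝ)) * t) ^ K := by
        rw [Finset.prod_pow_eq_pow_sum]
        refine pow_le_pow_right₀ (by nlinarith) ?_
        exact (Finset.sum_le_sum_of_subset (Finset.subset_univ _)).trans hS.deg
      have h6 : ((2 * (t : ℝ)) * t) ^ K = (2 * t) ^ K * (t : ℝ) ^ K := mul_pow _ _ _
      have h7 : (0 : ℝ) ≤ (2 * t) ^ K * (t : ℝ) ^ K := by positivity
      have h8 : (2 * (t : ℝ)) ^ K * (t : ℝ) ^ K ≤ (t : ℝ) * ((2 * t) ^ K * (t : ℝ) ^ K) := by
        nlinarith
      linarith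
    have h4 : |(α : ℝ)| * |(β : ℝ)| * |(γ : ℝ)| ≤ (t : ℝ) ^ 3 := by
      have a1 := hS.coef.1.trans hB2
      have a2 := hS.coef.2.1.trans hB2
      have a3 := hS.coef.2.2.trans hB2
      calc |(α : ℝ)| * |(β : ℝ)| * |(γ : ℝ)| ≤ t * t * t := by gcongr
        _ = (t : ℝ) ^ 3 := by ring
    have h5 : (2 * (t : ℝ)) ^ K ≤ (t : ℝ) ^ (2 * K) := by
      rw [pow_mul]
      exact pow_le_pow_left₀ (by positivity) (by nlinarith) K
    calc G ≤ |(α : ℝ)| * |(β : ℝ)| * |(γ : ℝ)| *
          |((∏ i ∈ used l b c, (F i).eval (t : ℤ) : ℤ) : ℝ)| := h1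
      _ ≤ (t : ℝ) ^ 3 * ((t : ℝ) * ((2 * t) ^ K * (t : ℝ) ^ K)) :=
          mul_le_mul h4 h3 (abs_nonneg _) (by positivity)
      _ ≤ (t : ℝ) ^ 3 * ((t : ℝ) * ((t : ℝ) ^ (2 * K) * (t : ℝ) ^ K)) := by gcongr
      _ = (t : ℝ) ^ (4 + 3 * K) := by
          rw [← pow_add, ← pow_succ', ← pow_add]
          congr 1
          ring
  have hlogG : Real.log G ≤ M * Real.log t := by
    have h1 := Real.log_le_log (by linarith) hGt
    rw [Real.log_pow] at h1
    rw [hM]
    push_cast at h1
    exact h1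
  have hlogG0 : 0 ≤ Real.log G := Real.log_nonneg hG1
  -- the power of the logarithm
  set w := om (a₁ * a₂ * a₃) with hw
  have hpos : 0 < Real.log G ^ w := by
    rcases Nat.eq_zero_or_pos w with h0 | h0
    · rw [h0, pow_zero]; exact one_pos
    · apply pow_pos
      apply Real.log_pos
      have h1 : 1 < gam (a₁ * a₂ * a₃) := by
        obtain ⟨p, hp⟩ := Finset.card_pos.1 h0
        have hp1 := (Nat.prime_of_mem_primeFactors hp).one_lt
        refine lt_of_lt_of_le hp1 (Nat.le_of_dvd ?_ (Finset.dvd_prod_of_mem _ hp))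
        exact Finset.prod_pos fun p hp => (Nat.prime_of_mem_primeFactors hp).pos
      rw [hGdef]
      exact_mod_cast h1
  have hpow : Real.log G ^ w ≤ (t : ℝ) ^ (1 - 2 * ε) := by
    have h1 : Real.log G ^ w ≤ (M * Real.log t) ^ w := pow_le_pow_left₀ hlogG0 hlogG w
    refine h1.trans ?_
    have hML : 0 < M * Real.log t := mul_pos (by linarith) hL
    rw [← Real.rpow_natCast, Real.rpow_def_of_pos hML, Real.rpow_def_of_pos ht0]
    apply Real.exp_le_exp.2
    rw [Real.log_mul (by linarith) hL.ne']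
    have hw0 : (0 : ℝ) ≤ w := Nat.cast_nonneg _
    have h2 : Real.log M ≤ ε * Real.log (Real.log t) := by
      rw [div_le_iff₀ hε] at hllt
      linarith
    have h3 : (w : ℝ) * Real.log M ≤ ε * (w * Real.log (Real.log t)) := by
      calc (w : ℝ) * Real.log M ≤ w * (ε * Real.log (Real.log t)) :=
            mul_le_mul_of_nonneg_left h2 hw0
        _ = _ := by ring
    have h4 : ε * (w * Real.log (Real.log t)) ≤ ε * ((1 - 3 * ε) * Real.log t) :=
      mul_le_mul_of_nonneg_left hom hε.le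
    have h5 : 0 ≤ ε * ε * Real.log t := by positivity
    nlinarith
  unfold H
  rw [← hGdef, ← hw, le_div_iff₀ hpos]
  have h1 : (a₃ : ℝ) * (t : ℝ) ^ ε * Real.log G ^ w ≤
      (a₃ : ℝ) * (t : ℝ) ^ ε * (t : ℝ) ^ (1 - 2 * ε) :=
    mul_le_mul_of_nonneg_left hpow (by positivity)
  have h2 : (a₃ : ℝ) * (t : ℝ) ^ ε * (t : ℝ) ^ (1 - 2 * ε) = (a₃ : ℝ) * (t : ℝ) ^ (1 - ε) := by
    rw [mul_assoc, ← Real.rpow_add ht0]
    congr 2
    ring
  linarith

end Pool.Agent.Results.MP_14cf73_nt.SmallDigits
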